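import Pool.Agent.H74.OLP.Targets

/-! Row WIN of board olp (MP_781dd6_co): a cycle runs along a path. -/

set_option autoImplicit false

namespace Pool.Agent.H60.OLP

open Finset Pool.Agent.H74.OLP
open scoped Classical

theorem win_run {F : Type} {T : SimpleGraph F} {n : ℕ} {c c' : ℤ → F} {z : ℕ → F} {a L : ℕ}
    (hc : ICyc T n c') (him : ∀ x, (∃ i, c' i = x) ↔ ∃ i, c i = x)
    (hL : ∀ j < L, ∀ i, T.Adj (z (a + j)) (c i) → c i = z (a + j - 1) ∨ c i = z (a + j + 1))
    (h0 : c' 0 = z a) (h1 : 1 ≤ L → c' 1 = z (a + 1)) (j : ℕ) :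
    (j ≤ L → c' j = z (a + j)) ∧ (j + 1 ≤ L → c' ((j : ℤ) + 1) = z (a + (j + 1))) := by
  induction j with
  | zero =>
    refine ⟨fun _ => by simpa using h0, fun h => by simpa using h1 (by omega)⟩
  | succ j ih =>
    refine ⟨fun h => ?_, fun h => ?_⟩
    · have := ih.2 h
      push_cast
      exact this
    · have e1 := ih.1 (by omega)
      have e2 := ih.2 (by omega)
      have hadj : T.Adj (c' ((j : ℤ) + 1)) (c' (((j : ℤ) + 1) + 1)) := by
        rw [hc.adj]
        right
        exact ⟨0, by ring⟩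
      obtain ⟨i, hi⟩ := (him (c' (((j : ℤ) + 1) + 1))).1 ⟨_, rfl⟩
      rw [e2, ← hi] at hadj
      rcases hL (j + 1) (by omega) i hadj with h3 | h3
      · exfalso
        have e3 : a + (j + 1) - 1 = a + j := by omega
        rw [e3, hi, ← e1, hc.eqv] at h3
        have h4 : ((j : ℤ) + 1) + 1 - j = 2 := by ring
        rw [h4] at h3
        have h5 := Int.le_of_dvd (by norm_num) h3
        have h6 := hc.n4
        omega
      · rw [hi] at h3
        push_cast
        rw [h3]
        congr 1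

theorem pf_WIN (h1 : T_CSI) : T_WIN := by
  intro F T n c z a L hc ha hz hL
  obtain ⟨i0, hi0⟩ := hz
  have hneg : ¬ (n : ℤ) ∣ 2 := by
    intro h
    have h5 := Int.le_of_dvd (by norm_num) h
    have h6 := hc.n4
    omega
  have imA : ∀ x, (∃ i, (fun i => c (i + i0)) i = x) ↔ ∃ i, c i = x := fun x =>
    ⟨fun ⟨i, hi⟩ => ⟨i + i0, hi⟩, fun ⟨i, hi⟩ => ⟨i - i0, by
      show c (i - i0 + i0) = x
      rw [sub_add_cancel, hi]⟩⟩
  have imB : ∀ x, (∃ i, (fun i => c (i0 - i)) i = x) ↔ ∃ i, c i = x := fun x =>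
    ⟨fun ⟨i, hi⟩ => ⟨i0 - i, hi⟩, fun ⟨i, hi⟩ => ⟨i0 - i, by
      show c (i0 - (i0 - i)) = x
      rw [sub_sub_cancel, hi]⟩⟩
  obtain ⟨⟨cA, sA⟩, cB, sB⟩ := h1 F T n c hc i0
  by_cases hcase : 1 ≤ L → c (i0 + 1) = z (a + 1)
  · refine ⟨fun i => c (i + i0), cA, imA, fun D _ => sA D, fun j hj => ?_⟩
    refine (win_run (z := z) (a := a) (L := L) cA imA hL ?_ ?_ j).1 hj
    · show c (0 + i0) = z a
      rw [zero_add, hi0]
    · intro h
      show c (1 + i0) = z (a + 1)
      rw [add_comm, hcase h]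
  · push Not at hcase
    obtain ⟨hL1, hne⟩ := hcase
    have hadj1 : T.Adj (z a) (c (i0 + 1)) := by
      rw [← hi0, hc.adj]
      right
      exact ⟨0, by ring⟩
    have hadj2 : T.Adj (z a) (c (i0 - 1)) := by
      rw [← hi0, hc.adj]
      left
      exact ⟨0, by ring⟩
    have k1 := hL 0 (by omega) (i0 + 1) (by rw [add_zero]; exact hadj1)
    have k2 := hL 0 (by omega) (i0 - 1) (by rw [add_zero]; exact hadj2)
    rw [add_zero] at k1 k2
    have k3 : c (i0 + 1) = z (a - 1) := by
      rcases k1 with h | h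
      · exact h
      · exact absurd h hne
    have k4 : c (i0 - 1) = z (a + 1) := by
      rcases k2 with h | h
      · exfalso
        rw [← k3, hc.eqv] at h
        have e : i0 - 1 - (i0 + 1) = -2 := by ring
        rw [e, dvd_neg] at h
        exact hneg h
      · exact h
    refine ⟨fun i => c (i0 - i), cB, imB, sB, fun j hj => ?_⟩
    refine (win_run (z := z) (a := a) (L := L) cB imB hL ?_ ?_ j).1 hj
    · show c (i0 - 0) = z a
      rw [sub_zero, hi0]
    · intro _
      exact k4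

end Pool.Agent.H60.OLP
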