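import Pool.Agent.H74.OLP.Targets2

/-! Row WZT of board olp (MP_781dd6_co): the even set of a closed walk. -/

set_option autoImplicit false

namespace Pool.Agent.H60.OLP

open Finset Pool.Agent.H74.OLP
open scoped Classical

theorem wzt_gen {V E F : Type} [Fintype V] [Fintype E] [Fintype F] (M : CMap V E F)
    (hs : M.SF) {u w : F} (p : M.T.Walk u w) : ∃ y : E → R,
    (∀ f, ∑ e, ((if M.l e = f then y e else 0) + (if M.r e = f then y e else 0)) =
      (if f = u then 1 else 0) + (if f = w then 1 else 0)) ∧
    (∀ e, y e ≠ 0 → M.l e ∈ p.support ∧ M.r e ∈ p.support) ∧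
    ∀ D, CMap.dot D y = ws M.T (M.lift D) p := by
  induction p with
  | nil =>
    refine ⟨fun _ => 0, fun f => ?_, fun e h => absurd rfl h, fun D => ?_⟩
    · rw [R2]
      simp
    · simp [CMap.dot]
  | @cons u v w h p ih =>
    obtain ⟨y, hy1, hy2, hy3⟩ := ih
    have h' := h
    obtain ⟨hne, e0, he0⟩ := h'
    refine ⟨fun e => y e + if e = e0 then 1 else 0, fun f => ?_, fun e he => ?_, fun D => ?_⟩
    · have e1 : ∀ e : E, ((if M.l e = f then y e + (if e = e0 then (1 : R) else 0) else 0) +
          (if M.r e = f then y e + (if e = e0 then (1 : R) else 0) else 0)) =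
          ((if M.l e = f then y e else 0) + (if M.r e = f then y e else 0)) +
          (if e = e0 then ((if M.l e = f then (1 : R) else 0) +
            (if M.r e = f then (1 : R) else 0)) else 0) := by
        intro e
        split_ifs <;> ring
      rw [Finset.sum_congr rfl fun e _ => e1 e, Finset.sum_add_distrib, hy1,
        Finset.sum_ite_eq' univ e0, if_pos (Finset.mem_univ _)]
      have e2 : (if M.l e0 = f then (1 : R) else 0) + (if M.r e0 = f then (1 : R) else 0) =
          (if f = u then (1 : R) else 0) + (if f = v then (1 : R) else 0) := by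
        rw [Sym2.eq_iff] at he0
        rcases he0 with ⟨b1, b2⟩ | ⟨b1, b2⟩
        · rw [b1, b2]
          simp only [eq_comm]
        · rw [b1, b2, add_comm]
          simp only [eq_comm]
      rw [e2]
      linear_combination R2 (if f = v then (1 : R) else 0)
    · have hsup : ∀ x, x ∈ (SimpleGraph.Walk.cons h p).support ↔
          (x = u ∨ x ∈ p.support) := fun x => by
        rw [SimpleGraph.Walk.support_cons, List.mem_cons]
      rw [hsup, hsup]
      by_cases hee : e = e0
      · rw [hee]
        rw [Sym2.eq_iff] at he0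
        have hv : v ∈ p.support := p.start_mem_support
        rcases he0 with ⟨b1, b2⟩ | ⟨b1, b2⟩
        · exact ⟨Or.inl b1, Or.inr (b2 ▸ hv)⟩
        · exact ⟨Or.inr (b1 ▸ hv), Or.inl b2⟩
      · have he' : y e ≠ 0 := by
          intro h0
          apply he
          show y e + (if e = e0 then (1 : R) else 0) = 0
          rw [if_neg hee, h0, add_zero]
        obtain ⟨b1, b2⟩ := hy2 e he'
        exact ⟨Or.inr b1, Or.inr b2⟩
    · rw [ws_cons, lift_eq M hs D he0, ← hy3 D]
      unfold CMap.dot
      rw [Finset.sum_congr rfl fun e _ => mul_add (D e) (y e) _, Finset.sum_add_distrib]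
      rw [add_comm]
      congr 1
      simp

theorem pf_WZT : T_WZT := by
  intro V E F _ _ _ M _ hs x p
  obtain ⟨y, h1, h2, h3⟩ := wzt_gen M hs p
  refine ⟨y, fun f => ?_, h2, h3⟩
  rw [h1 f, R2]

end Pool.Agent.H60.OLP
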